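import Pool.Agent.H47.RP.Targets

/-!
Board rpr, row RZE: small values.
-/

set_option autoImplicit false

open MeasureTheory ProbabilityTheory Filter Topology Finset

namespace Pool.Agent.H13.RPR

open Pool.Agent.H89.MT (I1 X pt z1 IsMult lavg)
open Pool.Agent.H47.RP Pool.Agent.H36.RP

/-- the partial sums over the primes -/
noncomputable def aS (u : ℕ → I1) (M : ℕ) : ℝ :=
  ∑ p ∈ (Icc 1 M).filter Nat.Prime, (1 - |(u p : ℝ)|) / p

/-- the logarithmic sums -/
noncomputable def lS (u : ℕ → I1) (M : ℕ) : ℝ := ∑ n ∈ Icc 1 M, |(u n : ℝ)| / n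

lemma abs_le_one (a : I1) : |(a : ℝ)| ≤ 1 := abs_le.2 ⟨a.2.1, a.2.2⟩

lemma aS_tendsto (u : ℕ → I1)
    (h : ¬ Summable (fun p : ℕ => if p.Prime then (1 - |(u p : ℝ)|) / p else 0)) :
    Tendsto (aS u) atTop atTop := by
  have h0 : ∀ p : ℕ, 0 ≤ (if p.Prime then (1 - |(u p : ℝ)|) / p else 0) := by
    intro p
    split_ifs
    · exact div_nonneg (by linarith [abs_le_one (u p)]) (Nat.cast_nonneg p)
    · exact le_refl _
  have h1 := (not_summable_iff_tendsto_nat_atTop_of_nonneg h0).1 h
  have h2 := h1.comp (tendsto_add_atTop_nat 1)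
  refine h2.congr fun M => ?_
  show ∑ i ∈ range (M + 1), (if i.Prime then (1 - |(u i : ℝ)|) / i else 0) = aS u M
  rw [aS, sum_filter]
  symm
  refine sum_subset (fun x hx => ?_) (fun x hx hx' => ?_)
  · rw [mem_Icc] at hx
    rw [mem_range]
    omega
  · rw [mem_range] at hx
    rw [mem_Icc] at hx'
    have : x = 0 := by omega
    subst this
    simp [Nat.not_prime_zero]

lemma lS_nonneg (u : ℕ → I1) (M : ℕ) : 0 ≤ lS u M :=
  sum_nonneg fun n _ => div_nonneg (abs_nonneg _) (Nat.cast_nonneg n)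

lemma lS_mono (u : ℕ → I1) {M M' : ℕ} (h : M ≤ M') : lS u M ≤ lS u M' :=
  sum_le_sum_of_subset_of_nonneg (Icc_subset_Icc_right h)
    fun n _ _ => div_nonneg (abs_nonneg _) (Nat.cast_nonneg n)

lemma sum_pos (u : ℕ → I1) (l N : ℕ) :
    ∑ n ∈ Icc 1 N, |(pt u n (l : ℤ) : ℝ)| / n ≤ (1 + l) * lS u (N + l) := by
  induction N with
  | zero =>
    rw [show Icc 1 0 = (∅ : Finset ℕ) from rfl, sum_empty]
    exact mul_nonneg (by positivity) (lS_nonneg _ _)
  | succ N ih =>
    rw [sum_Icc_succ_top (by omega)]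
    have h1 : pt u (N + 1) (l : ℤ) = u (N + l + 1) := by
      unfold pt
      rw [if_pos (by positivity)]
      congr 1
      omega
    have h2 : lS u (N + 1 + l) = lS u (N + l) + |(u (N + l + 1) : ℝ)| / ((N + l + 1 : ℕ) : ℝ) := by
      unfold lS
      rw [show N + 1 + l = (N + l) + 1 by omega, sum_Icc_succ_top (by omega)]
    rw [h1, h2, mul_add]
    refine add_le_add ih ?_
    have h3 : (0 : ℝ) < ((N + 1 : ℕ) : ℝ) := by positivity
    have h4 : (0 : ℝ) < ((N + l + 1 : ℕ) : ℝ) := by positivity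
    rw [← mul_div_assoc, div_le_div_iff₀ h3 h4]
    have h5 : ((N + l + 1 : ℕ) : ℝ) ≤ (1 + l) * ((N + 1 : ℕ) : ℝ) := by
      push_cast
      have : (0 : ℝ) ≤ (l : ℝ) * N := by positivity
      nlinarith
    calc |(u (N + l + 1) : ℝ)| * ((N + l + 1 : ℕ) : ℝ)
        ≤ |(u (N + l + 1) : ℝ)| * ((1 + l) * ((N + 1 : ℕ) : ℝ)) :=
          mul_le_mul_of_nonneg_left h5 (abs_nonneg _)
      _ = (1 + l) * |(u (N + l + 1) : ℝ)| * ((N + 1 : ℕ) : ℝ) := by ring

lemma sum_neg (u : ℕ → I1) (l N : ℕ) :
    ∑ n ∈ Icc 1 N, |(pt u n (-(l : ℤ)) : ℝ)| / n ≤ lS u (N - l) := by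
  induction N with
  | zero =>
    rw [show Icc 1 0 = (∅ : Finset ℕ) from rfl, sum_empty]
    exact lS_nonneg _ _
  | succ N ih =>
    rw [sum_Icc_succ_top (by omega)]
    by_cases hl : N + 1 ≤ l
    · have h1 : pt u (N + 1) (-(l : ℤ)) = z1 := by
        unfold pt
        rw [if_neg (by omega)]
      rw [h1]
      have h2 : |(z1 : ℝ)| / ((N + 1 : ℕ) : ℝ) = 0 := by
        simp [z1]
      rw [h2, add_zero]
      exact ih.trans (lS_mono u (by omega))
    · have h1 : pt u (N + 1) (-(l : ℤ)) = u (N - l + 1) := by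
        unfold pt
        rw [if_pos (by omega)]
        congr 1
        omega
      have h2 : lS u (N + 1 - l) = lS u (N - l) + |(u (N - l + 1) : ℝ)| /
          ((N - l + 1 : ℕ) : ℝ) := by
        unfold lS
        rw [show N + 1 - l = (N - l) + 1 by omega, sum_Icc_succ_top (by omega)]
      rw [h1, h2]
      refine add_le_add ih ?_
      refine div_le_div_of_nonneg_left (abs_nonneg _) (by positivity) ?_
      exact_mod_cast (by omega : N - l + 1 ≤ N + 1)

lemma sum_all (u : ℕ → I1) (k : ℤ) (N : ℕ) :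
    ∑ n ∈ Icc 1 N, |(pt u n k : ℝ)| / n ≤ (1 + k.natAbs) * lS u (N + k.natAbs) := by
  rcases Int.natAbs_eq k with h | h
  · have := sum_pos u k.natAbs N
    rwa [← h] at this
  · have h1 := sum_neg u k.natAbs N
    rw [← h] at h1
    refine h1.trans ((lS_mono u (by omega : N - k.natAbs ≤ N + k.natAbs)).trans ?_)
    have h2 := lS_nonneg u (N + k.natAbs)
    have h3 : (0 : ℝ) ≤ (k.natAbs : ℝ) := Nat.cast_nonneg _
    nlinarith

theorem pf_RZE (hRZA : T_RZA) : T_RZE := by
  intro u hu hns κ hκ
  obtain ⟨hprob, N, hN, hlim⟩ := hκ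
  obtain ⟨C, hC⟩ := hRZA
  have hdiv := aS_tendsto u hns
  have key : ∀ k : ℤ, ∀ᵐ x ∂κ, (x k : ℝ) = 0 := by
    intro k
    set l := k.natAbs with hl
    have hcont : Continuous fun x : X => |(x k : ℝ)| :=
      (continuous_subtype_val.comp (continuous_apply k)).abs
    have h1 := hlim ⟨fun x => |(x k : ℝ)|, hcont⟩
    have hexp : Tendsto (fun j => Real.exp (-aS u (N j + l))) atTop (𝓝 0) := by
      refine Real.tendsto_exp_neg_atTop_nhds_zero.comp ?_
      exact hdiv.comp (tendsto_atTop_mono (fun j => Nat.le_add_right (N j) l) hN)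
    have hbd : Tendsto (fun j => ((1 + l) * |C| * (1 + Real.log (1 + l) / Real.log 2)) *
        Real.exp (-aS u (N j + l))) atTop (𝓝 0) := by
      have := hexp.const_mul ((1 + l : ℝ) * |C| * (1 + Real.log (1 + l) / Real.log 2))
      rwa [mul_zero] at this
    have h2 : Tendsto (fun j => lavg (N j) fun n => |(pt u n k : ℝ)|) atTop (𝓝 0) := by
      refine squeeze_zero' (Eventually.of_forall fun j => ?_) ?_ hbd
      · unfold lavg
        exact div_nonneg (sum_nonneg fun n _ => div_nonneg (abs_nonneg _) (Nat.cast_nonneg n))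
          (Real.log_natCast_nonneg _)
      · filter_upwards [hN.eventually_ge_atTop 2] with j hj
        have hj' : (2 : ℝ) ≤ N j := by exact_mod_cast hj
        have hlog2 : 0 < Real.log 2 := Real.log_pos (by norm_num)
        have hlogN : Real.log 2 ≤ Real.log (N j) := Real.log_le_log (by norm_num) hj'
        have hlogN0 : 0 < Real.log (N j) := hlog2.trans_le hlogN
        have e1 := sum_all u k (N j)
        rw [← hl] at e1
        have e2 : lS u (N j + l) ≤ C * Real.log ((N j + l : ℕ) : ℝ) *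
            Real.exp (-aS u (N j + l)) := hC u hu (N j + l) (by omega)
        have e3 : Real.log ((N j + l : ℕ) : ℝ) ≤
            (1 + Real.log (1 + l) / Real.log 2) * Real.log (N j) := by
          have f1 : ((N j + l : ℕ) : ℝ) ≤ (N j : ℝ) * (1 + l) := by
            push_cast
            have : (0 : ℝ) ≤ (l : ℝ) := Nat.cast_nonneg _
            nlinarith
          have f2 : Real.log ((N j + l : ℕ) : ℝ) ≤ Real.log (N j) + Real.log (1 + l) := by
            rw [← Real.log_mul (by positivity) (by positivity)]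
            exact Real.log_le_log (by positivity) f1
          have f3 : 0 ≤ Real.log (1 + (l : ℝ)) := Real.log_nonneg (by
            have : (0 : ℝ) ≤ (l : ℝ) := Nat.cast_nonneg _
            linarith)
          have f4 : Real.log (1 + (l : ℝ)) ≤ Real.log (1 + l) / Real.log 2 * Real.log (N j) := by
            rw [div_mul_eq_mul_div, le_div_iff₀ hlog2]
            exact mul_le_mul_of_nonneg_left hlogN f3
          linarith
        have e4 : 0 ≤ Real.log ((N j + l : ℕ) : ℝ) := Real.log_natCast_nonneg _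
        have e5 : lS u (N j + l) ≤ |C| * ((1 + Real.log (1 + l) / Real.log 2) *
            Real.log (N j)) * Real.exp (-aS u (N j + l)) := by
          refine e2.trans (mul_le_mul_of_nonneg_right ?_ (Real.exp_nonneg _))
          exact (mul_le_mul_of_nonneg_right (le_abs_self C) e4).trans
            (mul_le_mul_of_nonneg_left e3 (abs_nonneg C))
        unfold lavg
        rw [div_le_iff₀ hlogN0]
        refine e1.trans ?_
        have e6 : (0 : ℝ) ≤ 1 + (l : ℝ) := by positivity
        calc (1 + (l : ℝ)) * lS u (N j + l)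
            ≤ (1 + (l : ℝ)) * (|C| * ((1 + Real.log (1 + l) / Real.log 2) *
            Real.log (N j)) * Real.exp (-aS u (N j + l))) := mul_le_mul_of_nonneg_left e5 e6
          _ = _ := by ring
    have h3 : ∫ x, |(x k : ℝ)| ∂κ = 0 := tendsto_nhds_unique h1 h2
    have hint : Integrable (fun x : X => |(x k : ℝ)|) κ := by
      refine Integrable.of_bound (C := 1) hcont.aestronglyMeasurable
        (Eventually.of_forall fun x => ?_)
      rw [Real.norm_eq_abs, abs_abs]
      exact abs_le_one _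
    have h4 := (integral_eq_zero_iff_of_nonneg (fun x => abs_nonneg _) hint).1 h3
    filter_upwards [h4] with x hx
    exact abs_eq_zero.1 hx
  exact ae_all_iff.2 key

end Pool.Agent.H13.RPR
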